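import Mathlib
import Pool.Agent.H15.Lin.Form

set_option autoImplicit false

/-!
High precision values of `log 2`, `log 3` and lower bounds for `|p log 2 - o log 3|` in ranges of `p`.
-/

namespace Pool.Agent.H15.Cyc

open Finset

theorem log89 : |Real.log (8 / 9) + 0.117783035656383454538794109470| ≤ 1 / 10 ^ 28 := by
  have z := Real.abs_log_sub_add_sum_range_le (x := 1 / 9) (by norm_num) 32
  rw [show (1 - (1 : ℝ) / 9) = 8 / 9 by norm_num, show |(1 : ℝ) / 9| = 1 / 9 by norm_num] at z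
  have w : |∑ i ∈ range 32, ((1 : ℝ) / 9) ^ (i + 1) / (i + 1) - 0.117783035656383454538794109470| ≤
      1 / (2 * 10 ^ 28) := by
    norm_num [sum_range_succ]
  have e : Real.log (8 / 9) + 0.117783035656383454538794109470 =
      (∑ i ∈ range 32, ((1 : ℝ) / 9) ^ (i + 1) / (i + 1) + Real.log (8 / 9)) -
      (∑ i ∈ range 32, ((1 : ℝ) / 9) ^ (i + 1) / (i + 1) - 0.117783035656383454538794109470) := by ring
  rw [e]
  refine (abs_sub _ _).trans ((add_le_add z w).trans ?_)
  norm_num

theorem log34 : |Real.log (3 / 4) + 0.287682072451780927439219005994| ≤ 1 / 10 ^ 28 := by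
  have z := Real.abs_log_sub_add_sum_range_le (x := 1 / 4) (by norm_num) 50
  rw [show (1 - (1 : ℝ) / 4) = 3 / 4 by norm_num, show |(1 : ℝ) / 4| = 1 / 4 by norm_num] at z
  have w : |∑ i ∈ range 50, ((1 : ℝ) / 4) ^ (i + 1) / (i + 1) - 0.287682072451780927439219005994| ≤
      1 / (2 * 10 ^ 28) := by
    norm_num [sum_range_succ]
  have e : Real.log (3 / 4) + 0.287682072451780927439219005994 =
      (∑ i ∈ range 50, ((1 : ℝ) / 4) ^ (i + 1) / (i + 1) + Real.log (3 / 4)) -
      (∑ i ∈ range 50, ((1 : ℝ) / 4) ^ (i + 1) / (i + 1) - 0.287682072451780927439219005994) := by ring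
  rw [e]
  refine (abs_sub _ _).trans ((add_le_add z w).trans ?_)
  norm_num

theorem log2_val : |Real.log 2 - 0.693147180559945309417232121458| ≤ 3 / 10 ^ 28 ∧
    |Real.log 3 - 1.098612288668109691395245236922| ≤ 5 / 10 ^ 28 := by
  have h1 := abs_le.1 log89
  have h2 := abs_le.1 log34
  have e1 : Real.log (8 / 9) = 3 * Real.log 2 - 2 * Real.log 3 := by
    rw [show (8 : ℝ) / 9 = 2 ^ 3 / 3 ^ 2 by norm_num, Real.log_div (by norm_num) (by norm_num),
      Real.log_pow, Real.log_pow]; push_cast; ring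
  have e2 : Real.log (3 / 4) = Real.log 3 - 2 * Real.log 2 := by
    rw [show (3 : ℝ) / 4 = 3 / 2 ^ 2 by norm_num, Real.log_div (by norm_num) (by norm_num),
      Real.log_pow]; push_cast; ring
  rw [e1] at h1
  rw [e2] at h2
  obtain ⟨h1a, h1b⟩ := h1
  obtain ⟨h2a, h2b⟩ := h2
  norm_num at h1a h1b h2a h2b ⊢
  constructor
  · rw [abs_le]; constructor <;> linarith
  · rw [abs_le]; constructor <;> linarith

end Pool.Agent.H15.Cyc
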