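import Mathlib
import Pool.Agent.H15.Cyc.Logs

set_option autoImplicit false

/-!
Lower bounds for `|p log 2 - o log 3|` in ranges of `p`, from continued fractions.
-/

namespace Pool.Agent.H15.Cyc

theorem vals : (0.693147180559945309417232121 ≤ Real.log 2 ∧
      Real.log 2 ≤ 0.693147180559945309417232122) ∧
    (1.098612288668109691395245236 ≤ Real.log 3 ∧ Real.log 3 ≤ 1.098612288668109691395245238) := by
  obtain ⟨h1, h2⟩ := log2_val
  rw [abs_le] at h1 h2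
  obtain ⟨h1a, h1b⟩ := h1
  obtain ⟨h2a, h2b⟩ := h2
  norm_num at h1a h1b h2a h2b ⊢
  refine ⟨⟨?_, ?_⟩, ⟨?_, ?_⟩⟩ <;> linarith

/-- best approximation from the other side -/
theorem cf' {q1 r1 q2 r2 : ℤ} (hdet : q1 * r2 - q2 * r1 = 1) (hq1 : 0 < q1) (hq2 : 0 < q2)
    (hA : 0 < (q1 : ℝ) * Real.log 2 - r1 * Real.log 3)
    (hB : 0 < (r2 : ℝ) * Real.log 3 - q2 * Real.log 2) (p o : ℤ) (hp : 0 < p) (hp2 : p < q1) :
    (r2 : ℝ) * Real.log 3 - q2 * Real.log 2 ≤ |(p : ℝ) * Real.log 2 - o * Real.log 3| := by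
  obtain ⟨s, hs⟩ : ∃ s, s = p * r2 - o * q2 := ⟨_, rfl⟩
  obtain ⟨t, ht⟩ : ∃ t, t = q1 * o - r1 * p := ⟨_, rfl⟩
  have e1 : p = q1 * s + q2 * t := by
    rw [hs, ht]; linear_combination (-p) * hdet
  have e2 : o = r1 * s + r2 * t := by
    rw [hs, ht]; linear_combination (-o) * hdet
  set A := (q1 : ℝ) * Real.log 2 - r1 * Real.log 3 with hAd
  set B := (r2 : ℝ) * Real.log 3 - q2 * Real.log 2 with hBd
  have e : (p : ℝ) * Real.log 2 - o * Real.log 3 = s * A - t * B := by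
    rw [e1, e2, hAd, hBd]; push_cast; ring
  rw [e]
  rcases lt_trichotomy s 0 with h | h | h
  · have ht1 : 1 ≤ t := by
      by_contra hcon
      push Not at hcon
      have : t ≤ 0 := by omega
      nlinarith
    have hs' : (s : ℝ) ≤ -1 := by
      have : s ≤ -1 := by omega
      exact_mod_cast this
    have ht' : (1 : ℝ) ≤ t := by exact_mod_cast ht1
    rw [le_abs]; right
    nlinarith
  · have ht1 : 1 ≤ t := by
      by_contra hcon
      push Not at hcon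
      have : t ≤ 0 := by omega
      rw [h] at e1
      nlinarith
    have ht' : (1 : ℝ) ≤ t := by exact_mod_cast ht1
    rw [h]
    rw [le_abs]; right
    push_cast
    nlinarith
  · have ht1 : t ≤ -1 := by
      by_contra hcon
      push Not at hcon
      have : 0 ≤ t := by omega
      nlinarith
    have ht' : (t : ℝ) ≤ -1 := by exact_mod_cast ht1
    have hs' : (1 : ℝ) ≤ s := by
      have : 1 ≤ s := by omega
      exact_mod_cast this
    rw [le_abs]; left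
    nlinarith

theorem lev_a (p o : ℤ) (hp : 0 < p) (hp2 : p < 17087915) :
    (52299 / 10 ^ 12 : ℝ) ≤ |(p : ℝ) * Real.log 2 - o * Real.log 3| := by
  obtain ⟨⟨h1, h2⟩, ⟨h3, h4⟩⟩ := vals
  have hA : (0 : ℝ) < (((17087915 : ℤ) : ℝ)) * Real.log 2 - (((10781274 : ℤ) : ℝ)) * Real.log 3 := by
    push_cast; linarith
  have hB : (52299 / 10 ^ 12 : ℝ) ≤ (((10590737 : ℤ) : ℝ)) * Real.log 3 - (((16785921 : ℤ) : ℝ)) * Real.log 2 := by
    push_cast; norm_num; linarith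
  exact hB.trans (cf' (by norm_num) (by norm_num) (by norm_num) hA
    (lt_of_lt_of_le (by norm_num) hB) p o hp hp2)

theorem lev_b (p o : ℤ) (hp : 0 < p) (hp2 : p < 85137581) :
    (12206 / 10 ^ 12 : ℝ) ≤ |(p : ℝ) * Real.log 2 - o * Real.log 3| := by
  obtain ⟨⟨h1, h2⟩, ⟨h3, h4⟩⟩ := vals
  have hA : (12206 / 10 ^ 12 : ℝ) ≤ (((17087915 : ℤ) : ℝ)) * Real.log 2 - (((10781274 : ℤ) : ℝ)) * Real.log 3 := by
    push_cast; norm_num; linarith
  have hB : (0 : ℝ) < (((53715833 : ℤ) : ℝ)) * Real.log 3 - (((85137581 : ℤ) : ℝ)) * Real.log 2 := by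
    push_cast; linarith
  exact hA.trans (Pool.Agent.H15.Lin.Form.cf (by norm_num) (by norm_num) (by norm_num)
    (lt_of_lt_of_le (by norm_num) hA) hB p o hp hp2)

theorem lev_c (p o : ℤ) (hp : 0 < p) (hp2 : p < 272500658) :
    (34725 / 10 ^ 13 : ℝ) ≤ |(p : ℝ) * Real.log 2 - o * Real.log 3| := by
  obtain ⟨⟨h1, h2⟩, ⟨h3, h4⟩⟩ := vals
  have hA : (0 : ℝ) < (((272500658 : ℤ) : ℝ)) * Real.log 2 - (((171928773 : ℤ) : ℝ)) * Real.log 3 := by
    push_cast; linarith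
  have hB : (34725 / 10 ^ 13 : ℝ) ≤ (((53715833 : ℤ) : ℝ)) * Real.log 3 - (((85137581 : ℤ) : ℝ)) * Real.log 2 := by
    push_cast; norm_num; linarith
  exact hB.trans (cf' (by norm_num) (by norm_num) (by norm_num) hA
    (lt_of_lt_of_le (by norm_num) hB) p o hp hp2)

theorem lev_d (p o : ℤ) (hp : 0 < p) (hp2 : p < 357638239) :
    (17891 / 10 ^ 13 : ℝ) ≤ |(p : ℝ) * Real.log 2 - o * Real.log 3| := by
  obtain ⟨⟨h1, h2⟩, ⟨h3, h4⟩⟩ := vals
  have hA : (17891 / 10 ^ 13 : ℝ) ≤ (((272500658 : ℤ) : ℝ)) * Real.log 2 - (((171928773 : ℤ) : ℝ)) * Real.log 3 := by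
    push_cast; norm_num; linarith
  have hB : (0 : ℝ) < (((225644606 : ℤ) : ℝ)) * Real.log 3 - (((357638239 : ℤ) : ℝ)) * Real.log 2 := by
    push_cast; linarith
  exact hA.trans (Pool.Agent.H15.Lin.Form.cf (by norm_num) (by norm_num) (by norm_num)
    (lt_of_lt_of_le (by norm_num) hA) hB p o hp hp2)

theorem lev_e (p o : ℤ) (hp : 0 < p) (hp2 : p < 630138897) :
    (16833 / 10 ^ 13 : ℝ) ≤ |(p : ℝ) * Real.log 2 - o * Real.log 3| := by
  obtain ⟨⟨h1, h2⟩, ⟨h3, h4⟩⟩ := vals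
  have hA : (0 : ℝ) < (((630138897 : ℤ) : ℝ)) * Real.log 2 - (((397573379 : ℤ) : ℝ)) * Real.log 3 := by
    push_cast; linarith
  have hB : (16833 / 10 ^ 13 : ℝ) ≤ (((225644606 : ℤ) : ℝ)) * Real.log 3 - (((357638239 : ℤ) : ℝ)) * Real.log 2 := by
    push_cast; norm_num; linarith
  exact hB.trans (cf' (by norm_num) (by norm_num) (by norm_num) hA
    (lt_of_lt_of_le (by norm_num) hB) p o hp hp2)

theorem lev_f (p o : ℤ) (hp : 0 < p) (hp2 : p < 9809721694) :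
    (10583 / 10 ^ 14 : ℝ) ≤ |(p : ℝ) * Real.log 2 - o * Real.log 3| := by
  obtain ⟨⟨h1, h2⟩, ⟨h3, h4⟩⟩ := vals
  have hA : (10583 / 10 ^ 14 : ℝ) ≤ (((630138897 : ℤ) : ℝ)) * Real.log 2 - (((397573379 : ℤ) : ℝ)) * Real.log 3 := by
    push_cast; norm_num; linarith
  have hB : (0 : ℝ) < (((6189245291 : ℤ) : ℝ)) * Real.log 3 - (((9809721694 : ℤ) : ℝ)) * Real.log 2 := by
    push_cast; linarith
  exact hA.trans (Pool.Agent.H15.Lin.Form.cf (by norm_num) (by norm_num) (by norm_num)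
    (lt_of_lt_of_le (by norm_num) hA) hB p o hp hp2)

theorem lev_g (p o : ℤ) (hp : 0 < p) (hp2 : p < 103768467013) :
    (10122 / 10 ^ 15 : ℝ) ≤ |(p : ℝ) * Real.log 2 - o * Real.log 3| := by
  obtain ⟨⟨h1, h2⟩, ⟨h3, h4⟩⟩ := vals
  have hA : (10122 / 10 ^ 15 : ℝ) ≤ (((10439860591 : ℤ) : ℝ)) * Real.log 2 - (((6586818670 : ℤ) : ℝ)) * Real.log 3 := by
    push_cast; norm_num; linarith
  have hB : (0 : ℝ) < (((65470613321 : ℤ) : ℝ)) * Real.log 3 - (((103768467013 : ℤ) : ℝ)) * Real.log 2 := by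
    push_cast; linarith
  exact hA.trans (Pool.Agent.H15.Lin.Form.cf (by norm_num) (by norm_num) (by norm_num)
    (lt_of_lt_of_le (by norm_num) hA) hB p o hp hp2)

end Pool.Agent.H15.Cyc
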