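import Mathlib

set_option autoImplicit false

/-!
Orbits of the map `T x = x / 2`, `(3 x + 1) / 2` on the integers: local inequalities.
-/

namespace Pool.Agent.H15.Cyc

open Finset

/-- The 3x+1 map on the integers. -/
def T (x : ℤ) : ℤ := if x % 2 = 0 then x / 2 else (3 * x + 1) / 2

theorem T_even {x : ℤ} (h : x % 2 = 0) : 2 * T x = x := by
  unfold T; rw [if_pos h]; omega

theorem T_odd {x : ℤ} (h : x % 2 = 1) : 2 * T x = 3 * x + 1 := by
  unfold T; rw [if_neg (by omega)]; omega

theorem par (x : ℤ) : x % 2 = 0 ∨ x % 2 = 1 := by omega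

/-- periodic orbits all whose elements have absolute value at least `N`. -/
structure Orb (a : ℕ → ℤ) (p : ℕ) (N : ℝ) : Prop where
  step : ∀ i, a (i + 1) = T (a i)
  per : ∀ i, a (i + p) = a i
  pos : 1 ≤ p
  big : ∀ i, N ≤ |(a i : ℝ)|

/-- the number of odd elements among the first ones -/
def od (a : ℕ → ℤ) : ℕ → ℕ
  | 0 => 0
  | i + 1 => od a i + (a i % 2).toNat

/-- an even element followed by an element congruent to `3` modulo `4` -/
def Ev (a : ℕ → ℤ) (i : ℕ) : Prop := a i % 2 = 0 ∧ a (i + 1) % 4 = 3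

instance (a : ℕ → ℤ) : DecidablePred (Ev a) := fun i => by unfold Ev; infer_instance

noncomputable def ka : ℝ := 1 + 1 / 100000

/-- contribution of one element to the linear form -/
noncomputable def fc (z : ℤ) : ℝ := if z % 2 = 1 then 1 / (3 * |(z : ℝ)| - 1) else 0

/-- the potential -/
noncomputable def gp (a : ℕ → ℤ) (i : ℕ) : ℝ :=
  if a (i + 1) % 2 = 0 then 2 * ka / |(a (i + 1) : ℝ)|
  else if a i % 2 = 0 then ka / |(a (i + 1) : ℝ)| else - (ka / |(a (i + 1) : ℝ)|)

section

variable {a : ℕ → ℤ} {p : ℕ} {N : ℝ}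

theorem Orb.even_step (h : Orb a p N) {i : ℕ} (hi : a i % 2 = 0) : 2 * a (i + 1) = a i := by
  rw [h.step]; exact T_even hi

theorem Orb.odd_step (h : Orb a p N) {i : ℕ} (hi : a i % 2 = 1) : 2 * a (i + 1) = 3 * a i + 1 := by
  rw [h.step]; exact T_odd hi

theorem Orb.even_abs (h : Orb a p N) {i : ℕ} (hi : a i % 2 = 0) :
    2 * |(a (i + 1) : ℝ)| = |(a i : ℝ)| := by
  have h1 := h.even_step hi
  have h2 : (2 : ℝ) * (a (i + 1) : ℝ) = (a i : ℝ) := by exact_mod_cast h1
  rw [← h2, abs_mul]; norm_num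

/-- the two signs -/
theorem Orb.odd_abs (h : Orb a p N) (hN : 1 ≤ N) {i : ℕ} (hi : a i % 2 = 1) :
    2 * |(a (i + 1) : ℝ)| = 3 * |(a i : ℝ)| + 1 ∨ 2 * |(a (i + 1) : ℝ)| = 3 * |(a i : ℝ)| - 1 := by
  have h1 := h.odd_step hi
  have h2 : (2 : ℝ) * (a (i + 1) : ℝ) = 3 * (a i : ℝ) + 1 := by exact_mod_cast h1
  have h3 := h.big i
  have h4 : 2 * |(a (i + 1) : ℝ)| = |3 * (a i : ℝ) + 1| := by
    rw [← h2, abs_mul]; norm_num
  rw [h4]
  rcases abs_cases (a i : ℝ) with ⟨h5, h6⟩ | ⟨h5, h6⟩
  · left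
    rw [abs_of_nonneg (by linarith), h5]
  · right
    rw [h5] at h3 ⊢
    rw [abs_of_nonpos (by linarith)]; ring

theorem Orb.odd_odd (h : Orb a p N) {i : ℕ} (hi : a i % 2 = 1) :
    a (i + 1) % 2 = 1 ↔ a i % 4 = 3 := by
  have h1 := h.odd_step hi
  omega

/-- the local inequality -/
theorem Orb.local_ineq (h : Orb a p N) (hN : 1000000 ≤ N) (i : ℕ) :
    fc (a (i + 1)) ≤ gp a (i + 1) - gp a i + if Ev a i then 2 * ka / |(a (i + 1) : ℝ)| else 0 := by
  have hk : ka = 1 + 1 / 100000 := rfl
  have hn1 := h.big (i + 1)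
  have hn2 := h.big (i + 1 + 1)
  set n : ℝ := |(a (i + 1) : ℝ)| with hn
  set n' : ℝ := |(a (i + 1 + 1) : ℝ)| with hn'
  have hn0 : 0 < n := by linarith
  have hn'0 : 0 < n' := by linarith
  have hka : 0 < ka := by rw [hk]; norm_num
  rcases par (a (i + 1)) with h1 | h1
  · -- the element is even
    have hE : ¬ Ev a i := fun hE => by have := hE.2; omega
    have e1 : 2 * n' = n := h.even_abs h1
    rw [if_neg hE]
    unfold fc gp
    rw [if_neg (by omega), if_pos h1, if_pos h1, ← hn, ← hn']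
    have e2 : 2 * ka / n = ka / n' := by rw [← e1]; field_simp
    rw [e2]
    have e3 : 0 < ka / n' := by positivity
    split_ifs
    · have : 2 * ka / n' = ka / n' + ka / n' := by ring
      linarith
    · linarith
  · have h3 := h.odd_abs (by linarith) h1
    rw [← hn, ← hn'] at h3
    -- `n' = (3 n ± 1) / 2`
    have hlow : 3 * n - 1 ≤ 2 * n' := by rcases h3 with h3 | h3 <;> linarith
    have hup : 2 * n' ≤ 3 * n + 1 := by rcases h3 with h3 | h3 <;> linarith
    have hfc : fc (a (i + 1)) = 1 / (3 * n - 1) := by unfold fc; rw [if_pos h1]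
    have hn3 : 0 < 3 * n - 1 := by linarith
    have b1 : 1 / (3 * n - 1) ≤ ka * (1 / n - 1 / n') := by
      rw [div_sub_div _ _ hn0.ne' hn'0.ne', ← mul_div_assoc, div_le_div_iff₀ hn3 (by positivity), hk]
      nlinarith
    have b2 : 1 / (3 * n - 1) ≤ ka * (2 / n' - 1 / n) := by
      rw [div_sub_div _ _ hn'0.ne' hn0.ne', ← mul_div_assoc, div_le_div_iff₀ hn3 (by positivity), hk]
      nlinarith
    have e1 : ka * (1 / n - 1 / n') = ka / n - ka / n' := by ring
    have e2 : ka * (2 / n' - 1 / n) = 2 * ka / n' - ka / n := by ring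
    have e3 : 2 * ka / n = ka / n + ka / n := by ring
    have p1 : 0 < ka / n := by positivity
    have p2 : 0 < ka / n' := by positivity
    rw [e1] at b1
    rw [e2] at b2
    rw [hfc]
    have h5 := h.odd_odd h1
    rcases par (a i) with h4 | h4
    · rcases par (a (i + 1 + 1)) with h6 | h6
      · -- isolated
        have hE : ¬ Ev a i := fun hE => by
          have h7 := h5.2 hE.2
          omega
        rw [if_neg hE]
        unfold gp
        rw [if_pos h6, if_neg (by omega), if_pos h4, ← hn, ← hn']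
        linarith
      · -- start of a long run
        have hE : Ev a i := ⟨h4, h5.1 h6⟩
        rw [if_pos hE]
        unfold gp
        rw [if_neg (by omega), if_neg (by omega), if_neg (by omega), if_pos h4, ← hn, ← hn']
        linarith
    · have hE : ¬ Ev a i := fun hE => by have := hE.1; omega
      rw [if_neg hE]
      unfold gp
      rw [if_neg (show ¬ a (i + 1) % 2 = 0 by omega), if_neg (show ¬ a (i + 1) % 2 = 0 by omega),
        if_neg (show ¬ a i % 2 = 0 by omega), ← hn, ← hn']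
      split_ifs
      · have : 2 * ka / n' = ka / n' + ka / n' := by ring
        linarith
      · linarith

end

end Pool.Agent.H15.Cyc
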