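import Mathlib
import Pool.Agent.H15.Cyc.Basic

set_option autoImplicit false

/-!
The blocks between two consecutive events.
-/

namespace Pool.Agent.H15.Cyc

open Finset

variable {a : ℕ → ℤ} {p : ℕ} {N : ℝ}

theorem od_succ_even {i : ℕ} (hi : a i % 2 = 0) : od a (i + 1) = od a i := by
  unfold od
  rw [hi]; simp
  cases i <;> rfl

theorem od_succ_odd {i : ℕ} (hi : a i % 2 = 1) : od a (i + 1) = od a i + 1 := by
  have : od a (i + 1) = od a i + (a i % 2).toNat := rfl
  rw [this, hi]; rfl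

/-- the run of odd elements after an event -/
theorem Orb.run (h : Orb a p N) (hN : 1000000 ≤ N) {s : ℕ} (hs : Ev a s) :
    ∃ k : ℕ, 2 ≤ k ∧ (∀ j, 1 ≤ j → j ≤ k → a (s + j) % 2 = 1) ∧ a (s + k + 1) % 2 = 0 ∧
      (2 : ℝ) ^ k ≤ |(a (s + 1) : ℝ)| + 1 ∧
      |(a (s + k + 1) : ℝ)| ≤ (3 / 2) ^ k * (|(a (s + 1) : ℝ)| + 1) + 1 := by
  have hex : ∃ j, a (s + (j + 1)) % 2 = 0 := ⟨p - 1, by
    have := h.pos
    rw [Nat.sub_add_cancel this, h.per]; exact hs.1⟩
  classical
  obtain ⟨k, hk1, hk2⟩ : ∃ k, a (s + (k + 1)) % 2 = 0 ∧ ∀ j < k, a (s + (j + 1)) % 2 = 1 := by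
    refine ⟨Nat.find hex, Nat.find_spec hex, fun j hj => ?_⟩
    have := Nat.find_min hex hj
    omega
  have hodd : ∀ j, 1 ≤ j → j ≤ k → a (s + j) % 2 = 1 := by
    intro j h1 h2
    have := hk2 (j - 1) (by omega)
    rwa [Nat.sub_add_cancel h1] at this
  have h31 : a (s + 1) % 4 = 3 := hs.2
  have hk0 : 2 ≤ k := by
    by_contra hcon
    have h1 : k = 0 ∨ k = 1 := by omega
    rcases h1 with h1 | h1
    · rw [h1] at hk1
      simp at hk1
      omega
    · rw [h1] at hk1
      have h2 := h.odd_step (i := s + 1) (by omega)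
      have e : s + (1 + 1) = s + 1 + 1 := by ring
      rw [e] at hk1
      omega
  have hpow : ∀ j, j ≤ k → (2 : ℤ) ^ j * (a (s + 1 + j) + 1) = 3 ^ j * (a (s + 1) + 1) := by
    intro j
    induction j with
    | zero => intro _; simp
    | succ j ih =>
      intro hj
      have h1 := ih (by omega)
      have h2 := h.odd_step (i := s + 1 + j) (by
        have := hodd (j + 1) (by omega) hj
        rwa [show s + (j + 1) = s + 1 + j by ring] at this)
      rw [show s + 1 + (j + 1) = s + 1 + j + 1 by ring]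
      calc (2 : ℤ) ^ (j + 1) * (a (s + 1 + j + 1) + 1) = 2 ^ j * (2 * a (s + 1 + j + 1) + 2) := by ring
        _ = 3 * (2 ^ j * (a (s + 1 + j) + 1)) := by rw [h2]; ring
        _ = _ := by rw [h1]; ring
  have hk := hpow k le_rfl
  have habs : |(a (s + 1) : ℝ) + 1| ≤ |(a (s + 1) : ℝ)| + 1 := by
    refine (abs_add_le _ _).trans ?_
    norm_num
  refine ⟨k, hk0, hodd, by rwa [show s + (k + 1) = s + k + 1 by ring] at hk1, ?_, ?_⟩
  · have hdvd : (2 : ℤ) ^ k ∣ a (s + 1) + 1 := by
      have h1 : (2 : ℤ) ^ k ∣ 3 ^ k * (a (s + 1) + 1) := ⟨_, hk.symm⟩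
      have hcop : IsCoprime ((2 : ℤ) ^ k) (3 ^ k) := by
        apply IsCoprime.pow
        exact ⟨-1, 1, by norm_num⟩
      exact hcop.dvd_of_dvd_mul_left h1
    have hne : a (s + 1) + 1 ≠ 0 := by
      intro h0
      have h1 := h.big (s + 1)
      have h2 : a (s + 1) = -1 := by omega
      rw [h2] at h1
      norm_num at h1
      linarith
    have h1 : (2 : ℤ) ^ k ≤ |a (s + 1) + 1| := Int.le_of_dvd (abs_pos.2 hne) ((dvd_abs _ _).2 hdvd)
    have h2 : ((2 : ℤ) ^ k : ℤ) ≤ (|a (s + 1) + 1| : ℤ) := h1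
    have h3 : (2 : ℝ) ^ k ≤ |(a (s + 1) : ℝ) + 1| := by exact_mod_cast h2
    linarith
  · have h1 : (2 : ℝ) ^ k * ((a (s + 1 + k) : ℝ) + 1) = 3 ^ k * ((a (s + 1) : ℝ) + 1) := by
      exact_mod_cast hk
    rw [show s + k + 1 = s + 1 + k by ring]
    have h2 : ((a (s + 1 + k) : ℝ) + 1) = (3 / 2) ^ k * ((a (s + 1) : ℝ) + 1) := by
      rw [div_pow, div_mul_eq_mul_div, eq_div_iff (by positivity)]
      linarith
    have h3 : (a (s + 1 + k) : ℝ) = (3 / 2) ^ k * ((a (s + 1) : ℝ) + 1) + (-1) := by linarith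
    rw [h3]
    refine (abs_add_le _ _).trans ?_
    rw [abs_mul, abs_of_pos (by positivity : (0 : ℝ) < (3 / 2) ^ k)]
    have h4 : (3 / 2 : ℝ) ^ k * |(a (s + 1) : ℝ) + 1| ≤ (3 / 2) ^ k * (|(a (s + 1) : ℝ)| + 1) :=
      mul_le_mul_of_nonneg_left habs (by positivity)
    have h5 : |(-1 : ℝ)| = 1 := by norm_num
    rw [h5]
    linarith

/-- between events nothing grows -/
theorem Orb.descent (h : Orb a p N) (hN : 1000000 ≤ N) {e s' : ℕ} (he : a e % 2 = 0)
    (hno : ∀ i, e ≤ i → i < s' → ¬ Ev a i) :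
    ∀ i, e ≤ i → i ≤ s' →
      (a i % 2 = 0 → (2 * (od a i : ℤ) - i ≤ 2 * (od a e : ℤ) - e ∧ |(a i : ℝ)| ≤ |(a e : ℝ)|)) ∧
      (a i % 2 = 1 → (2 * (od a i : ℤ) - i + 1 ≤ 2 * (od a e : ℤ) - e ∧
        2 * |(a i : ℝ)| ≤ |(a e : ℝ)| ∧ a i % 4 = 1)) := by
  intro i hi
  induction i, hi using Nat.le_induction with
  | base =>
    intro _
    refine ⟨fun _ => ⟨le_rfl, le_rfl⟩, fun h1 => by omega⟩
  | succ i hi ih =>
    intro hi'
    obtain ⟨ih1, ih2⟩ := ih (by omega)
    rcases par (a i) with h1 | h1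
    · obtain ⟨h2, h3⟩ := ih1 h1
      have h4 := h.even_abs h1
      have h5 := abs_nonneg (a (i + 1) : ℝ)
      rw [od_succ_even h1]
      push_cast
      refine ⟨fun _ => ⟨by omega, by linarith⟩, fun h6 => ⟨by omega, by linarith, ?_⟩⟩
      have h7 := hno i hi (by omega)
      unfold Ev at h7
      by_contra h8
      exact h7 ⟨h1, by omega⟩
    · obtain ⟨h2, h3, h4⟩ := ih2 h1
      have h5 : a (i + 1) % 2 = 0 := by
        have := h.odd_step h1
        omega
      have h6 := h.odd_abs (by linarith) h1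
      rw [od_succ_odd h1]
      push_cast
      refine ⟨fun _ => ⟨by omega, ?_⟩, fun h7 => by omega⟩
      have h7 := h.big e
      rcases h6 with h6 | h6 <;> linarith

/-- the sum of the contributions -/
noncomputable def FS (a : ℕ → ℤ) (k : ℕ) : ℝ := ∑ i ∈ range k, fc (a (i + 1))

/-- the block between two consecutive events -/
theorem Orb.block (h : Orb a p N) (hN : 1000000 ≤ N) {s s' : ℕ} (hss : s < s') (hs : Ev a s)
    (hs' : Ev a s') (hno : ∀ i, s < i → i < s' → ¬ Ev a i) :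
    ∃ k : ℕ, (2 : ℝ) ^ k ≤ |(a (s + 1) : ℝ)| + 1 ∧
      2 * (od a s' : ℝ) - 2 * od a s + 1 ≤ k + (s' - s) ∧
      2 * |(a (s' + 1) : ℝ)| ≤ (3 / 2) ^ k * (|(a (s + 1) : ℝ)| + 1) + 1 ∧
      FS a s' - FS a s ≤ gp a s' - gp a s + 2 * ka / |(a (s + 1) : ℝ)| := by
  obtain ⟨k, hk2, hodd, heven, hpow, hsize⟩ := h.run hN hs
  -- no event before the end of the run
  have hrun : s + k + 1 ≤ s' := by
    by_contra hcon
    push Not at hcon
    have := hodd (s' - s) (by omega) (by omega)
    rw [show s + (s' - s) = s' by omega] at this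
    have := hs'.1
    omega
  have hd := h.descent hN heven (s' := s') (fun i h1 h2 => hno i (by omega) h2) s' hrun le_rfl
  obtain ⟨hd1, hd2⟩ := hd.1 hs'.1
  have hodrun : ∀ j, j ≤ k → od a (s + 1 + j) = od a s + j := by
    intro j
    induction j with
    | zero => intro _; exact od_succ_even hs.1
    | succ j ih =>
      intro hj
      have h1 : a (s + 1 + j) % 2 = 1 := by
        have := hodd (j + 1) (by omega) hj
        rwa [show s + (j + 1) = s + 1 + j by ring] at this
      rw [show s + 1 + (j + 1) = s + 1 + j + 1 by ring, od_succ_odd h1, ih (by omega)]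
      ring
  have hk' := hodrun k le_rfl
  rw [show s + 1 + k = s + k + 1 by ring] at hk'
  refine ⟨k, hpow, ?_, ?_, ?_⟩
  · rw [hk'] at hd1
    push_cast at hd1
    have h1 : 2 * (od a s' : ℤ) - 2 * od a s + 1 ≤ k + (s' - s) := by linarith
    have h2 : ((2 * (od a s' : ℤ) - 2 * od a s + 1 : ℤ) : ℝ) ≤ ((k + (s' - s) : ℤ) : ℝ) := by
      exact_mod_cast h1
    push_cast at h2
    linarith
  · have h1 := h.even_abs hs'.1
    linarith
  · -- telescoping
    have key : ∀ i, s + 1 ≤ i → i ≤ s' →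
        FS a i - FS a s ≤ gp a i - gp a s + 2 * ka / |(a (s + 1) : ℝ)| := by
      intro i hi
      induction i, hi using Nat.le_induction with
      | base =>
        intro _
        have h1 := h.local_ineq hN s
        rw [if_pos hs] at h1
        unfold FS
        rw [Finset.sum_range_succ]
        linarith
      | succ i hi ih =>
        intro hi'
        have h1 := h.local_ineq hN i
        rw [if_neg (hno i (by omega) (by omega))] at h1
        have h2 := ih (by omega)
        have h3 : FS a (i + 1) = FS a i + fc (a (i + 1)) := by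
          unfold FS; rw [Finset.sum_range_succ]
        rw [h3]
        linarith
    exact key s' (by omega) le_rfl

end Pool.Agent.H15.Cyc
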