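import Mathlib
import Pool.Agent.H15.Cyc.Blocks

set_option autoImplicit false

/-!
The chain of all events of a periodic orbit.
-/

namespace Pool.Agent.H15.Cyc

open Finset

variable {a : ℕ → ℤ} {p : ℕ} {N : ℝ}

theorem step_log (h : Orb a p N) (hN : 1000000 ≤ N) (i : ℕ) :
    |Real.log |(a (i + 1) : ℝ)| - Real.log |(a i : ℝ)| + Real.log 2 -
      ((a i % 2).toNat : ℝ) * Real.log 3| ≤ fc (a i) := by
  have hn := h.big i
  have hn' := h.big (i + 1)
  set n : ℝ := |(a i : ℝ)| with hnd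
  set n' : ℝ := |(a (i + 1) : ℝ)| with hnd'
  rcases par (a i) with h1 | h1
  · have h2 := h.even_abs h1
    rw [← hnd, ← hnd'] at h2
    rw [h1]
    have h3 : Real.log n = Real.log 2 + Real.log n' := by
      rw [← h2, Real.log_mul (by norm_num) (by linarith)]
    unfold fc
    rw [if_neg (by omega), h3]
    simp
  · have h2 := h.odd_abs (by linarith) h1
    rw [← hnd, ← hnd'] at h2
    rw [h1]
    unfold fc
    rw [if_pos h1, ← hnd]
    have hn3 : 0 < 3 * n - 1 := by linarith
    have h3 : Real.log n' = Real.log (2 * n') - Real.log 2 := by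
      rw [Real.log_mul (by norm_num) (by linarith)]; ring
    have h4 : Real.log (3 * n) = Real.log 3 + Real.log n := by
      rw [Real.log_mul (by norm_num) (by linarith)]
    have e : Real.log n' - Real.log n + Real.log 2 - (((1 : ℤ).toNat : ℕ) : ℝ) * Real.log 3 =
        Real.log (2 * n') - Real.log (3 * n) := by
      rw [h3, h4]; simp; ring
    rw [e]
    rcases h2 with h2 | h2
    · rw [h2, ← Real.log_div (by linarith) (by linarith)]
      have h5 : 0 ≤ Real.log ((3 * n + 1) / (3 * n)) := by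
        apply Real.log_nonneg
        rw [le_div_iff₀ (by linarith)]; linarith
      rw [abs_of_nonneg h5]
      have h6 := Real.log_le_sub_one_of_pos (show 0 < (3 * n + 1) / (3 * n) by
        apply div_pos <;> linarith)
      have h7 : (3 * n + 1) / (3 * n) - 1 = 1 / (3 * n) := by
        rw [div_sub_one (by linarith)]; ring
      have h8 : 1 / (3 * n) ≤ 1 / (3 * n - 1) := one_div_le_one_div_of_le hn3 (by linarith)
      linarith
    · rw [h2]
      have h5 : Real.log (3 * n - 1) - Real.log (3 * n) = - Real.log ((3 * n) / (3 * n - 1)) := by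
        rw [Real.log_div (by linarith) (by linarith)]; ring
      rw [h5, abs_neg]
      have h5 : 0 ≤ Real.log ((3 * n) / (3 * n - 1)) := by
        apply Real.log_nonneg
        rw [le_div_iff₀ (by linarith)]; linarith
      rw [abs_of_nonneg h5]
      have h6 := Real.log_le_sub_one_of_pos (show 0 < (3 * n) / (3 * n - 1) by
        apply div_pos <;> linarith)
      have h7 : (3 * n) / (3 * n - 1) - 1 = 1 / (3 * n - 1) := by
        rw [div_sub_one (by linarith)]; ring
      linarith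

theorem sum_log (h : Orb a p N) (hN : 1000000 ≤ N) (k : ℕ) :
    |Real.log |(a (k + 1) : ℝ)| - Real.log |(a 1 : ℝ)| + k * Real.log 2 -
      ((od a (k + 1) : ℝ) - od a 1) * Real.log 3| ≤ FS a k := by
  induction k with
  | zero => simp [FS]
  | succ k ih =>
    have h1 := step_log h hN (k + 1)
    have h2 : FS a (k + 1) = FS a k + fc (a (k + 1)) := by
      unfold FS; rw [Finset.sum_range_succ]
    have h3 : (od a (k + 1 + 1) : ℝ) = od a (k + 1) + ((a (k + 1) % 2).toNat : ℝ) := by
      have : od a (k + 1 + 1) = od a (k + 1) + (a (k + 1) % 2).toNat := rfl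
      rw [this]; push_cast; ring
    rw [h2, h3]
    push_cast
    have e : Real.log |(a (k + 1 + 1) : ℝ)| - Real.log |(a 1 : ℝ)| + ((k : ℝ) + 1) * Real.log 2 -
        ((od a (k + 1) : ℝ) + ((a (k + 1) % 2).toNat : ℝ) - od a 1) * Real.log 3 =
        (Real.log |(a (k + 1) : ℝ)| - Real.log |(a 1 : ℝ)| + k * Real.log 2 -
          ((od a (k + 1) : ℝ) - od a 1) * Real.log 3) +
        (Real.log |(a (k + 1 + 1) : ℝ)| - Real.log |(a (k + 1) : ℝ)| + Real.log 2 -
          ((a (k + 1) % 2).toNat : ℝ) * Real.log 3) := by ring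
    rw [e]
    exact (abs_add_le _ _).trans (add_le_add ih h1)

/-- the linear form -/
theorem form (h : Orb a p N) (hN : 1000000 ≤ N) (h0 : Ev a 0) :
    |(p : ℝ) * Real.log 2 - od a p * Real.log 3| ≤ FS a p := by
  have h1 := sum_log h hN p
  have e1 : a (p + 1) = a 1 := by rw [add_comm]; exact h.per 1
  have e2 : a p = a 0 := by have := h.per 0; rwa [zero_add] at this
  have e3 : od a (p + 1) = od a p := od_succ_even (by rw [e2]; exact h0.1)
  have e4 : od a 1 = 0 := by
    have := od_succ_even (a := a) (i := 0) h0.1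
    rw [zero_add] at this
    rw [this]; rfl
  rw [e1, e3, e4] at h1
  simpa using h1

theorem three_halves : (3 / 2 : ℝ) ≤ 2 ^ (0.585 : ℝ) := by
  have h1 : (2 : ℝ) ^ (0.585 : ℝ) = (2 ^ (117 : ℕ)) ^ ((1 : ℝ) / 200) := by
    rw [← Real.rpow_natCast, ← Real.rpow_mul (by norm_num)]; norm_num
  rw [h1]
  have h2 : (3 / 2 : ℝ) = ((3 / 2) ^ (200 : ℕ)) ^ ((1 : ℝ) / 200) := by
    rw [← Real.rpow_natCast, ← Real.rpow_mul (by norm_num)]; norm_num
  rw [h2]
  apply Real.rpow_le_rpow (by positivity) _ (by norm_num)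
  norm_num

theorem small_shift : (1.00001 : ℝ) ≤ 2 ^ (0.01 : ℝ) := by
  have h1 : (2 : ℝ) ^ (0.01 : ℝ) = (2 : ℝ) ^ ((1 : ℝ) / 100) := by norm_num
  rw [h1]
  have h2 : (1.00001 : ℝ) = ((1.00001) ^ (100 : ℕ)) ^ ((1 : ℝ) / 100) := by
    rw [← Real.rpow_natCast, ← Real.rpow_mul (by norm_num)]; norm_num
  rw [h2]
  apply Real.rpow_le_rpow (by positivity) _ (by norm_num)
  norm_num

/-- growth -/
theorem growth {n n' : ℝ} {k : ℕ} (hn : 1000000 ≤ n) (hn' : 1000000 ≤ n') (hk : (2 : ℝ) ^ k ≤ n + 1)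
    (h : 2 * n' ≤ (3 / 2) ^ k * (n + 1) + 1) :
    Real.logb 2 (n' + 1) ≤ 1.585 * Real.logb 2 (n + 1) - 0.99 := by
  set v := Real.logb 2 (n + 1) with hv
  have hu : (n + 1) = 2 ^ v := by
    rw [hv, Real.rpow_logb (by norm_num) (by norm_num) (by linarith)]
  have hkv : (k : ℝ) ≤ v := by
    rw [hv, Real.le_logb_iff_rpow_le (by norm_num) (by linarith), Real.rpow_natCast]
    exact hk
  have h1 : (3 / 2 : ℝ) ^ k ≤ 2 ^ (0.585 * v) := by
    calc (3 / 2 : ℝ) ^ k ≤ (2 ^ (0.585 : ℝ)) ^ k := pow_le_pow_left₀ (by norm_num) three_halves k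
      _ = 2 ^ (0.585 * (k : ℝ)) := by
        rw [← Real.rpow_natCast, ← Real.rpow_mul (by norm_num)]
      _ ≤ _ := Real.rpow_le_rpow_of_exponent_le (by norm_num) (by nlinarith)
  have h2 : (3 / 2 : ℝ) ^ k * (n + 1) ≤ 2 ^ (1.585 * v) := by
    calc (3 / 2 : ℝ) ^ k * (n + 1) ≤ 2 ^ (0.585 * v) * 2 ^ v := by
          rw [← hu]; exact mul_le_mul_of_nonneg_right h1 (by linarith)
      _ = 2 ^ (1.585 * v) := by rw [← Real.rpow_add (by norm_num)]; congr 1; ring
  have hk0 : (0 : ℝ) ≤ k := Nat.cast_nonneg _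
  have h3 : (1000001 : ℝ) ≤ 2 ^ (1.585 * v) := by
    have : (2 : ℝ) ^ v ≤ 2 ^ (1.585 * v) :=
      Real.rpow_le_rpow_of_exponent_le (by norm_num) (by linarith)
    rw [← hu] at this
    linarith
  rw [Real.logb_le_iff_le_rpow (by norm_num) (by linarith)]
  have h4 : (2 : ℝ) ^ (1.585 * v - 0.99) = 2 ^ (1.585 * v) * 2 ^ (0.01 : ℝ) / 2 := by
    rw [show 1.585 * v - 0.99 = 1.585 * v + 0.01 - 1 by ring, Real.rpow_sub (by norm_num),
      Real.rpow_add (by norm_num), Real.rpow_one]
  rw [h4]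
  have h5 := small_shift
  nlinarith

/-- **The chain of events.** -/
theorem Orb.chain (h : Orb a p N) (hN : 1000000 ≤ N) (h0 : Ev a 0) :
    ∃ n : ℕ → ℝ, n 0 = |(a 1 : ℝ)| ∧ (∀ j, ∃ i, n j = |(a i : ℝ)|) ∧
      (∀ j < Nat.count (Ev a) p, Real.logb 2 (n (j + 1) + 1) ≤ 1.585 * Real.logb 2 (n j + 1) - 0.99) ∧
      2 * (od a p : ℝ) + Nat.count (Ev a) p ≤
        ∑ j ∈ range (Nat.count (Ev a) p), Real.logb 2 (n j + 1) + p ∧
      |(p : ℝ) * Real.log 2 - od a p * Real.log 3| ≤
        2 * ka * ∑ j ∈ range (Nat.count (Ev a) p), 1 / n j := by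
  set M := Nat.count (Ev a) p with hM
  set s : ℕ → ℕ := Nat.nth (Ev a) with hs
  have hper : ∀ i, Ev a (i + p) ↔ Ev a i := by
    intro i
    unfold Ev
    rw [h.per, show i + p + 1 = i + 1 + p by ring, h.per]
  have hmul : ∀ j, Ev a (j * p) := by
    intro j
    induction j with
    | zero => simpa using h0
    | succ j ih => rw [Nat.succ_mul, hper]; exact ih
  have hinf : (Set.ofPred (Ev a)).Infinite := by
    apply Set.infinite_of_not_bddAbove
    rintro ⟨B, hB⟩
    have h1 := hB (hmul (B + 1))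
    have := h.pos
    nlinarith
  have hsmem : ∀ j, Ev a (s j) := fun j => Nat.nth_mem_of_infinite hinf j
  have hsmono : StrictMono s := Nat.nth_strictMono hinf
  have hs0 : s 0 = 0 := Nat.nth_zero_of_zero h0
  have hsM : s M = p := by
    rw [hs, hM]
    apply Nat.nth_count
    have := hmul 1
    rwa [one_mul] at this
  have hno : ∀ j, ∀ i, s j < i → i < s (j + 1) → ¬ Ev a i := by
    intro j i h1 h2 h3
    have := Nat.le_nth_of_lt_nth_succ h2 h3
    exact absurd h1 (not_lt.2 this)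
  have hblock := fun j => h.block hN (hsmono (Nat.lt_succ_self j)) (hsmem j) (hsmem (j + 1)) (hno j)
  choose k hk1 hk2 hk3 hk4 using hblock
  refine ⟨fun j => |(a (s j + 1) : ℝ)|, by simp [hs0], fun j => ⟨_, rfl⟩, ?_, ?_, ?_⟩
  · intro j _
    have h1 := h.big (s j + 1)
    have h2 := h.big (s (j + 1) + 1)
    exact growth (by linarith) (by linarith) (hk1 j) (hk3 j)
  · have h1 : ∀ j ∈ range M, 2 * (od a (s (j + 1)) : ℝ) - 2 * od a (s j) + 1 -
        ((s (j + 1) : ℝ) - s j) ≤ Real.logb 2 (|(a (s j + 1) : ℝ)| + 1) := by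
      intro j _
      have h2 := hk2 j
      have h3 : (k j : ℝ) ≤ Real.logb 2 (|(a (s j + 1) : ℝ)| + 1) := by
        have := abs_nonneg (a (s j + 1) : ℝ)
        rw [Real.le_logb_iff_rpow_le (by norm_num) (by linarith), Real.rpow_natCast]
        exact hk1 j
      linarith
    have h2 := Finset.sum_le_sum h1
    have h3 : ∑ j ∈ range M, (2 * (od a (s (j + 1)) : ℝ) - 2 * od a (s j) + 1 -
        ((s (j + 1) : ℝ) - s j)) = 2 * (od a p : ℝ) + M - p := by
      have e1 : ∀ j ∈ range M, (2 * (od a (s (j + 1)) : ℝ) - 2 * od a (s j) + 1 -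
          ((s (j + 1) : ℝ) - s j)) = (fun j => 2 * (od a (s j) : ℝ) - s j) (j + 1) -
            (fun j => 2 * (od a (s j) : ℝ) - s j) j + 1 := by
        intro j _
        simp only
        ring
      rw [Finset.sum_congr rfl e1, Finset.sum_add_distrib,
        Finset.sum_range_sub (fun j => 2 * (od a (s j) : ℝ) - s j)]
      simp only [hs0, hsM, Finset.sum_const, Finset.card_range]
      simp [od]
      ring
    rw [h3] at h2
    linarith
  · refine (form h hN h0).trans ?_
    have h1 : ∀ j ∈ range M, (FS a (s (j + 1)) - FS a (s j)) - (gp a (s (j + 1)) - gp a (s j)) ≤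
        2 * ka * (1 / |(a (s j + 1) : ℝ)|) := by
      intro j _
      have h2 := hk4 j
      have e : 2 * ka * (1 / |(a (s j + 1) : ℝ)|) = 2 * ka / |(a (s j + 1) : ℝ)| := by ring
      rw [e]; linarith
    have h2 := Finset.sum_le_sum h1
    rw [← Finset.mul_sum, Finset.sum_sub_distrib, Finset.sum_range_sub (fun j => FS a (s j)),
      Finset.sum_range_sub (fun j => gp a (s j))] at h2
    rw [hs0, hsM] at h2
    have e1 : FS a 0 = 0 := by simp [FS]
    have e2 : gp a p = gp a 0 := by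
      unfold gp
      have e3 : a p = a 0 := by have := h.per 0; rwa [zero_add] at this
      have e4 : a (p + 1) = a (0 + 1) := by rw [add_comm, h.per]
      rw [e3, e4]
    rw [e1, e2] at h2
    linarith

end Pool.Agent.H15.Cyc
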