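import Mathlib
import Pool.Agent.H15.Cyc.Chain
import Pool.Agent.H15.Cyc.Levels

set_option autoImplicit false

/-!
No unknown periodic orbit with at most 32 events.
-/

namespace Pool.Agent.H15.Cyc

open Finset

variable {a : ℕ → ℤ} {p : ℕ} {N : ℝ}

/-- the largest possible size after `c` circuits -/
noncomputable def phi (t : ℝ) (c : ℕ) : ℝ := (t - 22 / 13) * 1.585 ^ c + 22 / 13

noncomputable def psi (t : ℝ) (b : ℕ) : ℝ := ∑ c ∈ range b, (phi t (c + 1) - 1)

theorem phi_succ (t : ℝ) (c : ℕ) : phi t (c + 1) = 1.585 * phi t c - 0.99 := by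
  unfold phi; rw [pow_succ]; ring

theorem phi_zero (t : ℝ) : phi t 0 = t := by unfold phi; ring

theorem phi_ge {t : ℝ} (ht : 2 ≤ t) (c : ℕ) : t ≤ phi t c := by
  induction c with
  | zero => rw [phi_zero]
  | succ c ih => rw [phi_succ]; linarith

theorem psi_succ (t : ℝ) (b : ℕ) : psi t (b + 1) = psi t b + (phi t (b + 1) - 1) := by
  unfold psi; rw [Finset.sum_range_succ]

theorem psi_closed (t : ℝ) (b : ℕ) :
    psi t b = (t - 22 / 13) * 1.585 * (1.585 ^ b - 1) / 0.585 + 9 / 13 * b := by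
  induction b with
  | zero => simp [psi]
  | succ b ih =>
    rw [psi_succ, ih]
    unfold phi
    push_cast
    rw [pow_succ]
    ring

theorem psi_add {t : ℝ} (ht : 2 ≤ t) (b k : ℕ) : psi t b + k * (t - 1) ≤ psi t (b + k) := by
  induction k with
  | zero => simp
  | succ k ih =>
    rw [← add_assoc, psi_succ]
    have := phi_ge ht (b + k + 1)
    push_cast
    linarith

theorem psi_mono {t : ℝ} (ht : 2 ≤ t) {b b' : ℕ} (h : b ≤ b') : psi t b ≤ psi t b' := by
  obtain ⟨k, rfl⟩ := Nat.exists_eq_add_of_le h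
  have h1 := psi_add ht b k
  have : 0 ≤ (k : ℝ) * (t - 1) := by
    have : (0 : ℝ) ≤ k := Nat.cast_nonneg _
    apply mul_nonneg this; linarith
  linarith

/-- the two sums -/
theorem sums (n : ℕ → ℝ) (M : ℕ) (t : ℕ) (ht : 2 ≤ t) (hN : 1000000 ≤ N) (hn : ∀ j, N ≤ n j)
    (h0 : Real.logb 2 (n 0 + 1) ≤ t)
    (hgr : ∀ j < M, Real.logb 2 (n (j + 1) + 1) ≤ 1.585 * Real.logb 2 (n j + 1) - 0.99) :
    ∃ B : ℕ, B ≤ M ∧
      ∑ j ∈ range M, (Real.logb 2 (n j + 1) - 1) ≤ ((M : ℝ) - B) * (t - 1) + psi t B ∧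
      ∑ j ∈ range M, 1 / n j ≤ ((M : ℝ) - B) / N + B / (2 ^ t - 1) := by
  have htR : (2 : ℝ) ≤ t := by exact_mod_cast ht
  have h2t : (0 : ℝ) < 2 ^ t - 1 := by
    have : (2 : ℝ) ^ 1 ≤ 2 ^ t := pow_le_pow_right₀ (by norm_num) (by omega)
    linarith
  have key : ∀ m, m ≤ M → ∃ B : ℕ, B ≤ m ∧
      ∑ j ∈ range m, (Real.logb 2 (n j + 1) - 1) ≤ ((m : ℝ) - B) * (t - 1) + psi t B ∧
      ∑ j ∈ range m, 1 / n j ≤ ((m : ℝ) - B) / N + B / (2 ^ t - 1) ∧
      ((Real.logb 2 (n m + 1) ≤ t ) ∨ Real.logb 2 (n m + 1) ≤ phi t (B + 1)) := by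
    intro m
    induction m with
    | zero =>
      intro _
      exact ⟨0, le_rfl, by simp [psi], by simp, Or.inl h0⟩
    | succ m ih =>
      intro hm
      obtain ⟨B, hB1, hB2, hB3, hB4⟩ := ih (by omega)
      have hg := hgr m (by omega)
      have hnm := hn m
      rcases le_or_gt (Real.logb 2 (n m + 1)) t with h | h
      · -- low
        refine ⟨B, by omega, ?_, ?_, ?_⟩
        · rw [Finset.sum_range_succ]; push_cast; linarith
        · rw [Finset.sum_range_succ]
          push_cast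
          have h1 : 1 / n m ≤ 1 / N := one_div_le_one_div_of_le (by linarith) hnm
          have e : ((m : ℝ) + 1 - B) / N = ((m : ℝ) - B) / N + 1 / N := by ring
          rw [e]; linarith
        · right
          have h1 : phi t (B + 1) = 1.585 * phi t B - 0.99 := phi_succ _ _
          have h2 := phi_ge htR B
          rw [h1]; linarith
      · -- high
        have h5 : Real.logb 2 (n m + 1) ≤ phi t (B + 1) := by
          rcases hB4 with h4 | h4
          · linarith
          · exact h4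
        refine ⟨B + 1, by omega, ?_, ?_, ?_⟩
        · rw [Finset.sum_range_succ, psi_succ]; push_cast; linarith
        · rw [Finset.sum_range_succ]
          push_cast
          have h6 : (2 : ℝ) ^ t < n m + 1 := by
            rw [Real.lt_logb_iff_rpow_lt (by norm_num) (by linarith), Real.rpow_natCast] at h
            exact h
          have h1 : 1 / n m ≤ 1 / (2 ^ t - 1) := one_div_le_one_div_of_le h2t (by linarith)
          have e : ((m : ℝ) + 1 - (B + 1)) / N + ((B : ℝ) + 1) / (2 ^ t - 1) =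
            (((m : ℝ) - B) / N + B / (2 ^ t - 1)) + 1 / (2 ^ t - 1) := by ring
          rw [e]; linarith
        · right
          rw [phi_succ]
          linarith
  obtain ⟨B, h1, h2, h3, -⟩ := key M le_rfl
  exact ⟨B, h1, h2, h3⟩

theorem log_ratio_lt : Real.log 3 < 1.585 * Real.log 2 := by
  obtain ⟨⟨h1, h2⟩, ⟨h3, h4⟩⟩ := vals
  linarith

/-- the bound for the length -/
theorem range_bound (h : Orb a p N) (hN : 2900000000 ≤ N) (h0 : Ev a 0)
    (hmin : ∀ i, |a 1| ≤ |a i|) (hM : Nat.count (Ev a) p ≤ 32) (t A0 : ℕ) (ht2 : 2 ≤ t)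
    (hA0 : 1 ≤ A0) (hA32 : A0 ≤ 32) (lam : ℝ) (hlam0 : 0 < lam)
    (hlam : lam ≤ |(p : ℝ) * Real.log 2 - od a p * Real.log 3|)
    (ht : 2 * ka * 32 + lam ≤ lam * 2 ^ t)
    (hA : 2 * ka * (((A0 : ℝ) - 1) / 2900000000 + 32 / (2 ^ t - 1)) < lam) :
    (p : ℝ) ≤ 1.585 / 0.415 * (A0 * (t - 1) + psi t (32 - A0) + 0.001) + 0.001 := by
  obtain ⟨n, hn0, hna, hgr, hcount, hform⟩ := h.chain (by linarith) h0
  set M := Nat.count (Ev a) p with hMd
  have hk : ka = 1 + 1 / 100000 := rfl
  have hka : 0 < ka := by rw [hk]; norm_num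
  have hMR : (M : ℝ) ≤ 32 := by exact_mod_cast hM
  have htR : (2 : ℝ) ≤ t := by exact_mod_cast ht2
  have h2t : (0 : ℝ) < 2 ^ t - 1 := by
    have : (2 : ℝ) ^ 1 ≤ 2 ^ t := pow_le_pow_right₀ (by norm_num) (by omega)
    linarith
  have hn : ∀ j, N ≤ n j := fun j => by
    obtain ⟨i, hi⟩ := hna j
    rw [hi]; exact h.big i
  have hn0le : ∀ j, n 0 ≤ n j := fun j => by
    obtain ⟨i, hi⟩ := hna j
    rw [hi, hn0]
    exact_mod_cast hmin i
  have hn0pos : 0 < n 0 := by have := hn 0; linarith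
  -- the least element is low
  have hlow : Real.logb 2 (n 0 + 1) ≤ t := by
    have hsum : ∑ j ∈ range M, 1 / n j ≤ 32 / n 0 := by
      have h1 : ∀ j ∈ range M, 1 / n j ≤ 1 / n 0 := fun j _ =>
        one_div_le_one_div_of_le hn0pos (hn0le j)
      have h2 := Finset.sum_le_sum h1
      simp only [Finset.sum_const, Finset.card_range, nsmul_eq_mul] at h2
      have e : (M : ℝ) * (1 / n 0) ≤ 32 / n 0 := by
        rw [mul_one_div]
        exact div_le_div_of_nonneg_right hMR hn0pos.le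
      linarith
    have h1 : lam ≤ 2 * ka * (32 / n 0) :=
      hlam.trans (hform.trans (mul_le_mul_of_nonneg_left hsum (by positivity)))
    have h2 : lam * n 0 ≤ 2 * ka * 32 := by
      have e : 2 * ka * (32 / n 0) = 2 * ka * 32 / n 0 := by ring
      rw [e, le_div_iff₀ hn0pos] at h1
      exact h1
    have h3 : n 0 + 1 ≤ 2 ^ t := by
      have h4 : lam * (n 0 + 1) ≤ lam * 2 ^ t := by linarith
      exact le_of_mul_le_mul_left h4 hlam0
    rw [Real.logb_le_iff_le_rpow (by norm_num) (by linarith), Real.rpow_natCast]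
    exact h3
  obtain ⟨B, hB1, hB2, hB3⟩ := sums n M t ht2 (by linarith) hn hlow hgr
  have hB1R : (B : ℝ) ≤ M := by exact_mod_cast hB1
  -- the number of low elements is at least `A0`
  have hAB : A0 + B ≤ M := by
    by_contra hcon
    push Not at hcon
    have h1 : (M : ℝ) - B ≤ A0 - 1 := by
      have : M + 1 ≤ A0 + B := hcon
      have : ((M + 1 : ℕ) : ℝ) ≤ ((A0 + B : ℕ) : ℝ) := by exact_mod_cast this
      push_cast at this
      linarith
    have h2 : ((M : ℝ) - B) / N ≤ ((A0 : ℝ) - 1) / 2900000000 := by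
      have h3 : 0 ≤ (M : ℝ) - B := by linarith
      calc ((M : ℝ) - B) / N ≤ ((M : ℝ) - B) / 2900000000 :=
            div_le_div_of_nonneg_left h3 (by norm_num) hN
        _ ≤ _ := div_le_div_of_nonneg_right h1 (by norm_num)
    have h4 : (B : ℝ) / (2 ^ t - 1) ≤ 32 / (2 ^ t - 1) :=
      div_le_div_of_nonneg_right (by linarith) h2t.le
    have h5 : ∑ j ∈ range M, 1 / n j ≤ ((A0 : ℝ) - 1) / 2900000000 + 32 / (2 ^ t - 1) := by
      linarith
    have h6 := hlam.trans (hform.trans (mul_le_mul_of_nonneg_left h5 (by positivity)))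
    linarith
  have hS : ((M : ℝ) - B) * (t - 1) + psi t B ≤ A0 * (t - 1) + psi t (32 - A0) := by
    obtain ⟨k, hk⟩ := Nat.exists_eq_add_of_le hAB
    have h1 := psi_add htR B k
    have h2 : psi t (B + k) ≤ psi t (32 - A0) := psi_mono htR (by omega)
    have h3 : (M : ℝ) = A0 + B + k := by
      have : (M : ℝ) = ((A0 + B + k : ℕ) : ℝ) := by rw [hk]
      push_cast at this
      exact this
    rw [h3]
    linarith
  -- length and number of odd elements
  have hsumv : ∑ j ∈ range M, Real.logb 2 (n j + 1) =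
      ∑ j ∈ range M, (Real.logb 2 (n j + 1) - 1) + M := by
    rw [Finset.sum_sub_distrib]; simp
  rw [hsumv] at hcount
  have hsmall : |(p : ℝ) * Real.log 2 - od a p * Real.log 3| ≤ 0.0001 := by
    have hsum : ∑ j ∈ range M, 1 / n j ≤ 32 / 2900000000 := by
      have h1 : ∀ j ∈ range M, 1 / n j ≤ 1 / 2900000000 := fun j _ =>
        one_div_le_one_div_of_le (by norm_num) (hN.trans (hn j))
      have h2 := Finset.sum_le_sum h1
      simp only [Finset.sum_const, Finset.card_range, nsmul_eq_mul] at h2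
      have e : (M : ℝ) * (1 / 2900000000) ≤ 32 / 2900000000 := by linarith
      linarith
    refine hform.trans ((mul_le_mul_of_nonneg_left hsum (by positivity)).trans ?_)
    rw [hk]; norm_num
  have hpo : (p : ℝ) ≤ 1.585 * od a p + 0.001 := by
    obtain ⟨⟨h1, h2⟩, ⟨h3, h4⟩⟩ := vals
    have h5 := (abs_le.1 hsmall).2
    have h6 := log_ratio_lt
    have h7 : (0 : ℝ) ≤ od a p := Nat.cast_nonneg _
    have h8 : (od a p : ℝ) * Real.log 3 ≤ od a p * (1.585 * Real.log 2) :=
      mul_le_mul_of_nonneg_left h6.le h7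
    have h9 : (p : ℝ) * Real.log 2 ≤ (1.585 * od a p + 0.001) * Real.log 2 := by nlinarith
    exact le_of_mul_le_mul_right h9 (by linarith)
  have hod : 0.415 * (od a p : ℝ) ≤ A0 * (t - 1) + psi t (32 - A0) + 0.001 := by linarith
  have e : (1.585 : ℝ) / 0.415 * (A0 * (t - 1) + psi t (32 - A0) + 0.001) =
      1.585 * ((A0 * (t - 1) + psi t (32 - A0) + 0.001) / 0.415) := by ring
  rw [e]
  have h10 : (od a p : ℝ) ≤ (A0 * (t - 1) + psi t (32 - A0) + 0.001) / 0.415 := by
    rw [le_div_iff₀ (by norm_num)]; linarith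
  linarith

end Pool.Agent.H15.Cyc
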