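import Mathlib
import Pool.Agent.H15.Cyc.Basic
import Pool.Agent.H15.Cyc.Sv.AllP
import Pool.Agent.H15.Cyc.Sv.AllN

set_option autoImplicit false

/-!
All integers with absolute value below `2900000000` reach a known cycle.
-/

namespace Pool.Agent.H15.Cyc

open Sv

/-- reaching a closed set -/
theorem reach_step {α : Type} {f : α → α} {K : α → Prop} (hK : ∀ x, K x → K (f x)) {y : α} (n : ℕ)
    (h : ∃ j, K (f^[j] y)) : ∃ j, K (f^[j] (f^[n] y)) := by
  obtain ⟨j, hj⟩ := h
  refine ⟨j, ?_⟩
  rw [← Function.iterate_add_apply, add_comm, Function.iterate_add_apply]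
  induction n with
  | zero => exact hj
  | succ n ih => rw [Function.iterate_succ_apply']; exact hK _ ih

theorem fP_pos {y : ℕ} (hy : 1 ≤ y) (j : ℕ) : 1 ≤ fP^[j] y := by
  induction j with
  | zero => exact hy
  | succ j ih =>
    rw [Function.iterate_succ_apply', fP_eq]
    split_ifs <;> omega

theorem fN_pos {y : ℕ} (hy : 1 ≤ y) (j : ℕ) : 1 ≤ fN^[j] y := by
  induction j with
  | zero => exact hy
  | succ j ih =>
    rw [Function.iterate_succ_apply', fN_eq]
    split_ifs <;> omega

def KP (x : ℕ) : Prop := x = 1 ∨ x = 2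

theorem KP_step (x : ℕ) (h : KP x) : KP (fP x) := by
  rcases h with rfl | rfl
  · right; decide
  · left; decide

theorem reachP : ∀ y : ℕ, 1 ≤ y → y < 2900000000 → ∃ j, KP (fP^[j] y) := by
  intro y
  induction y using Nat.strong_induction_on with
  | _ y ih =>
    intro h1 h2
    have h9 : y % 9 < 9 := Nat.mod_lt _ (by norm_num)
    by_cases hm : y % 9 ∈ [0, 1, 3, 6, 7]
    · rcases goodP y h2 hm with h | h | ⟨j, hj⟩
      · exact ⟨0, Or.inl (by simpa using (by omega : y = 1))⟩
      · rw [h]
        exact ⟨9, by unfold KP; decide⟩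
      · obtain ⟨k, hk⟩ := ih _ hj (fP_pos h1 j) (by omega)
        exact ⟨k + j, by rw [Function.iterate_add_apply]; exact hk⟩
    · have hc : y % 3 = 2 ∨ y % 9 = 4 := by
        simp only [List.mem_cons, List.not_mem_nil, or_false, not_or] at hm
        omega
      rcases hc with hc | hc
      · obtain ⟨k, hk⟩ : ∃ k, y = 3 * k + 2 := ⟨y / 3, by omega⟩
        have h3 := reach_step KP_step 1 (ih (2 * k + 1) (by omega) (by omega) (by omega))
        have h4 : fP^[1] (2 * k + 1) = y := by
          rw [Function.iterate_one, fP_eq, if_neg (by omega)]; omega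
        rwa [h4] at h3
      · obtain ⟨k, hk⟩ : ∃ k, y = 9 * k + 4 := ⟨y / 9, by omega⟩
        have h3 := reach_step KP_step 3 (ih (8 * k + 3) (by omega) (by omega) (by omega))
        have h4 : fP^[3] (8 * k + 3) = y := by
          have e1 : fP (8 * k + 3) = 12 * k + 5 := by rw [fP_eq, if_neg (by omega)]; omega
          have e2 : fP (12 * k + 5) = 18 * k + 8 := by rw [fP_eq, if_neg (by omega)]; omega
          have e3 : fP (18 * k + 8) = 9 * k + 4 := by rw [fP_eq, if_pos (by omega)]; omega
          change fP (fP (fP (8 * k + 3))) = y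
          rw [e1, e2, e3, hk]
        rwa [h4] at h3

def KN (x : ℕ) : Prop := x ∈ [1, 5, 7, 10, 17, 25, 37, 55, 82, 41, 61, 91, 136, 68, 34]

theorem KN_step (x : ℕ) (h : KN x) : KN (fN x) := by
  unfold KN at h
  have : ∀ x ∈ [1, 5, 7, 10, 17, 25, 37, 55, 82, 41, 61, 91, 136, 68, 34],
    fN x ∈ [1, 5, 7, 10, 17, 25, 37, 55, 82, 41, 61, 91, 136, 68, 34] := by decide
  exact this x h

theorem reachN : ∀ y : ℕ, 1 ≤ y → y < 2900000000 → ∃ j, KN (fN^[j] y) := by
  intro y
  induction y using Nat.strong_induction_on with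
  | _ y ih =>
    intro h1 h2
    have h9 : y % 9 < 9 := Nat.mod_lt _ (by norm_num)
    by_cases hm : y % 9 ∈ [0, 2, 3, 6, 8]
    · rcases goodN y h2 hm with h | h | ⟨j, hj⟩
      · have : y = 1 := by omega
        rw [this]
        exact ⟨0, by unfold KN; decide⟩
      · rw [h]
        exact ⟨0, by unfold KN; decide⟩
      · obtain ⟨k, hk⟩ := ih _ hj (fN_pos h1 j) (by omega)
        exact ⟨k + j, by rw [Function.iterate_add_apply]; exact hk⟩
    · have hc : y % 3 = 1 ∨ y % 9 = 5 := by
        simp only [List.mem_cons, List.not_mem_nil, or_false, not_or] at hm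
        omega
      rcases hc with hc | hc
      · obtain ⟨k, hk⟩ : ∃ k, y = 3 * k + 1 := ⟨y / 3, by omega⟩
        rcases Nat.eq_zero_or_pos k with hk0 | hk0
        · have : y = 1 := by omega
          rw [this]
          exact ⟨0, by unfold KN; decide⟩
        · have h3 := reach_step KN_step 1 (ih (2 * k + 1) (by omega) (by omega) (by omega))
          have h4 : fN^[1] (2 * k + 1) = y := by
            rw [Function.iterate_one, fN_eq, if_neg (by omega)]; omega
          rwa [h4] at h3
      · obtain ⟨k, hk⟩ : ∃ k, y = 9 * k + 5 := ⟨y / 9, by omega⟩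
        rcases Nat.eq_zero_or_pos k with hk0 | hk0
        · have : y = 5 := by omega
          rw [this]
          exact ⟨0, by unfold KN; decide⟩
        · have h3 := reach_step KN_step 3 (ih (8 * k + 5) (by omega) (by omega) (by omega))
          have h4 : fN^[3] (8 * k + 5) = y := by
            have e1 : fN (8 * k + 5) = 12 * k + 7 := by rw [fN_eq, if_neg (by omega)]; omega
            have e2 : fN (12 * k + 7) = 18 * k + 10 := by rw [fN_eq, if_neg (by omega)]; omega
            have e3 : fN (18 * k + 10) = 9 * k + 5 := by rw [fN_eq, if_pos (by omega)]; omega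
            change fN (fN (fN (8 * k + 5))) = y
            rw [e1, e2, e3, hk]
          rwa [h4] at h3

theorem T_natP (y : ℕ) (j : ℕ) : T^[j] (y : ℤ) = (fP^[j] y : ℕ) := by
  induction j with
  | zero => rfl
  | succ j ih =>
    rw [Function.iterate_succ_apply', Function.iterate_succ_apply', ih, fP_eq]
    generalize fP^[j] y = z
    unfold T
    split_ifs <;> omega

theorem T_natN (y : ℕ) (j : ℕ) : T^[j] (-(y : ℤ)) = -((fN^[j] y : ℕ) : ℤ) := by
  induction j with
  | zero => rfl
  | succ j ih =>
    rw [Function.iterate_succ_apply', Function.iterate_succ_apply', ih, fN_eq]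
    generalize fN^[j] y = z
    unfold T
    split_ifs <;> omega

/-- the elements of the known cycles -/
def Kn : Finset ℤ := {0, 1, 2, -1, -5, -7, -10, -17, -25, -37, -55, -82, -41, -61, -91, -136, -68, -34}

theorem reach (x : ℤ) (hx : |x| < 2900000000) : ∃ j, T^[j] x ∈ Kn := by
  rcases lt_trichotomy x 0 with h | h | h
  · obtain ⟨y, rfl⟩ : ∃ y : ℕ, x = -(y : ℤ) := ⟨x.natAbs, by omega⟩
    rw [abs_neg, abs_of_nonneg (by omega)] at hx
    obtain ⟨j, hj⟩ := reachN y (by omega) (by omega)
    refine ⟨j, ?_⟩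
    rw [T_natN]
    unfold KN at hj
    have : ∀ x ∈ [1, 5, 7, 10, 17, 25, 37, 55, 82, 41, 61, 91, 136, 68, 34], -((x : ℕ) : ℤ) ∈ Kn := by
      decide
    exact this _ hj
  · rw [h]; exact ⟨0, by decide⟩
  · obtain ⟨y, rfl⟩ : ∃ y : ℕ, x = (y : ℤ) := ⟨x.natAbs, by omega⟩
    rw [abs_of_nonneg (by omega)] at hx
    obtain ⟨j, hj⟩ := reachP y (by omega) (by omega)
    refine ⟨j, ?_⟩
    rw [T_natP]
    rcases hj with h | h
    · rw [h]; decide
    · rw [h]; decide

end Pool.Agent.H15.Cyc
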