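import Mathlib
import Pool.Agent.H15.Cyc.Final

set_option autoImplicit false

/-!
No periodic orbit with at most 32 events all whose elements are large.
-/

namespace Pool.Agent.H15.Cyc

open Finset

variable {a : ℕ → ℤ} {p : ℕ} {N : ℝ}

theorem form_small (h : Orb a p N) (hN : 2900000000 ≤ N) (h0 : Ev a 0)
    (hM : Nat.count (Ev a) p ≤ 32) :
    |(p : ℝ) * Real.log 2 - od a p * Real.log 3| ≤ 2.3 / 10 ^ 8 := by
  obtain ⟨n, hn0, hna, hgr, hcount, hform⟩ := h.chain (by linarith) h0
  set M := Nat.count (Ev a) p with hMd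
  have hk : ka = 1 + 1 / 100000 := rfl
  have hka : 0 < ka := by rw [hk]; norm_num
  have hMR : (M : ℝ) ≤ 32 := by exact_mod_cast hM
  have hn : ∀ j, N ≤ n j := fun j => by
    obtain ⟨i, hi⟩ := hna j
    rw [hi]; exact h.big i
  have hsum : ∑ j ∈ range M, 1 / n j ≤ 32 / 2900000000 := by
    have h1 : ∀ j ∈ range M, 1 / n j ≤ 1 / 2900000000 := fun j _ =>
      one_div_le_one_div_of_le (by norm_num) (hN.trans (hn j))
    have h2 := Finset.sum_le_sum h1
    simp only [Finset.sum_const, Finset.card_range, nsmul_eq_mul] at h2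
    have e : (M : ℝ) * (1 / 2900000000) ≤ 32 / 2900000000 := by linarith
    linarith
  refine hform.trans ((mul_le_mul_of_nonneg_left hsum (by positivity)).trans ?_)
  rw [hk]; norm_num

theorem psi_num (t : ℝ) (b : ℕ) (P : ℝ) (A0 : ℝ)
    (h : 1.585 / 0.415 * (A0 * (t - 1) + ((t - 22 / 13) * 1.585 * (1.585 ^ b - 1) / 0.585 +
      9 / 13 * b) + 0.001) + 0.001 < P) :
    1.585 / 0.415 * (A0 * (t - 1) + psi t b + 0.001) + 0.001 < P := by
  rw [psi_closed]; exact h

/-- the length is huge -/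
theorem long (h : Orb a p N) (hN : 2900000000 ≤ N) (h0 : Ev a 0)
    (hmin : ∀ i, |a 1| ≤ |a i|) (hM : Nat.count (Ev a) p ≤ 32) : 103768467013 ≤ p := by
  have hk : ka = 1 + 1 / 100000 := rfl
  have hp := h.pos
  have hsm := form_small h hN h0 hM
  by_contra hcon
  push Not at hcon
  rcases Nat.lt_or_ge p 17087915 with h1 | h1
  · have h2 := lev_a (p : ℤ) (od a p : ℤ) (by omega) (by omega)
    push_cast at h2
    have := h2.trans hsm
    norm_num at this
  rcases Nat.lt_or_ge p 85137581 with h2 | h2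
  · have h3 := lev_b (p : ℤ) (od a p : ℤ) (by omega) (by omega)
    push_cast at h3
    have h4 := range_bound h hN h0 hmin hM 37 18 (by norm_num) (by norm_num) (by norm_num) _
      (by norm_num) h3 (by rw [hk]; norm_num) (by rw [hk]; norm_num)
    have h5 := psi_num ((37 : ℕ) : ℝ) (32 - 18) 17087915 ((18 : ℕ) : ℝ) (by norm_num)
    have h6 : (17087915 : ℝ) ≤ p := by exact_mod_cast h1
    linarith
  rcases Nat.lt_or_ge p 272500658 with h3 | h3
  · have h4 := lev_c (p : ℤ) (od a p : ℤ) (by omega) (by omega)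
    push_cast at h4
    have h5 := range_bound h hN h0 hmin hM 42 6 (by norm_num) (by norm_num) (by norm_num) _
      (by norm_num) h4 (by rw [hk]; norm_num) (by rw [hk]; norm_num)
    have h6 := psi_num ((42 : ℕ) : ℝ) (32 - 6) 85137581 ((6 : ℕ) : ℝ) (by norm_num)
    have h7 : (85137581 : ℝ) ≤ p := by exact_mod_cast h2
    linarith
  rcases Nat.lt_or_ge p 357638239 with h4 | h4
  · have h5 := lev_d (p : ℤ) (od a p : ℤ) (by omega) (by omega)
    push_cast at h5
    have h6 := range_bound h hN h0 hmin hM 38 3 (by norm_num) (by norm_num) (by norm_num) _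
      (by norm_num) h5 (by rw [hk]; norm_num) (by rw [hk]; norm_num)
    have h7 := psi_num ((38 : ℕ) : ℝ) (32 - 3) 272500658 ((3 : ℕ) : ℝ) (by norm_num)
    have h8 : (272500658 : ℝ) ≤ p := by exact_mod_cast h3
    linarith
  rcases Nat.lt_or_ge p 630138897 with h5 | h5
  · have h6 := lev_e (p : ℤ) (od a p : ℤ) (by omega) (by omega)
    push_cast at h6
    have h7 := range_bound h hN h0 hmin hM 38 3 (by norm_num) (by norm_num) (by norm_num) _
      (by norm_num) h6 (by rw [hk]; norm_num) (by rw [hk]; norm_num)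
    have h8 := psi_num ((38 : ℕ) : ℝ) (32 - 3) 357638239 ((3 : ℕ) : ℝ) (by norm_num)
    have h9 : (357638239 : ℝ) ≤ p := by exact_mod_cast h4
    linarith
  rcases Nat.lt_or_ge p 9809721694 with h6 | h6
  · have h7 := lev_f (p : ℤ) (od a p : ℤ) (by omega) (by omega)
    push_cast at h7
    have h8 := range_bound h hN h0 hmin hM 40 1 (by norm_num) (by norm_num) (by norm_num) _
      (by norm_num) h7 (by rw [hk]; norm_num) (by rw [hk]; norm_num)
    have h9 := psi_num ((40 : ℕ) : ℝ) (32 - 1) 630138897 ((1 : ℕ) : ℝ) (by norm_num)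
    have h10 : (630138897 : ℝ) ≤ p := by exact_mod_cast h5
    linarith
  · have h7 := lev_g (p : ℤ) (od a p : ℤ) (by omega) (by omega)
    push_cast at h7
    have h8 := range_bound h hN h0 hmin hM 43 1 (by norm_num) (by norm_num) (by norm_num) _
      (by norm_num) h7 (by rw [hk]; norm_num) (by rw [hk]; norm_num)
    have h9 := psi_num ((43 : ℕ) : ℝ) (32 - 1) 9809721694 ((1 : ℕ) : ℝ) (by norm_num)
    have h10 : (9809721694 : ℝ) ≤ p := by exact_mod_cast h6
    linarith

/-- **No large orbit with at most 32 events.** -/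
theorem none (h : Orb a p N) (hN : 2900000000 ≤ N) (h0 : Ev a 0)
    (hmin : ∀ i, |a 1| ≤ |a i|) (hM : Nat.count (Ev a) p ≤ 32) : False := by
  have hk : ka = 1 + 1 / 100000 := rfl
  have hlong := long h hN h0 hmin hM
  have hsm := form_small h hN h0 hM
  have hpR : (103768467013 : ℝ) ≤ p := by exact_mod_cast hlong
  obtain ⟨⟨v1, v2⟩, ⟨v3, v4⟩⟩ := vals
  obtain ⟨hs1, hs2⟩ := abs_le.1 hsm
  norm_num at hs1 hs2
  -- the ratio
  have ho1 : (p : ℝ) < 2 * od a p := by nlinarith
  have ho2 : 3 * (od a p : ℝ) < 2 * p := by nlinarith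
  have ho1' : (p : ℤ) < 2 * (od a p : ℤ) := by exact_mod_cast ho1
  have ho2' : 3 * (od a p : ℤ) < 2 * (p : ℤ) := by exact_mod_cast ho2
  have hpo : 49 * ((p : ℝ) - od a p) ≤ 18.2 * p := by nlinarith
  set c : ℝ := 204800 / 117649 with hc
  have hc1 : 1 < c := by rw [hc]; norm_num
  have hex : ∃ r : ℕ, 49 * ((p : ℝ) - od a p) ≤ c ^ r := by
    obtain ⟨r, hr⟩ := pow_unbounded_of_one_lt (49 * ((p : ℝ) - od a p)) hc1
    exact ⟨r, hr.le⟩
  classical
  set r := Nat.find hex with hr
  have hspec : 49 * ((p : ℝ) - od a p) ≤ c ^ r := Nat.find_spec hex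
  have hlow := Pool.Agent.H15.Lin.Form.lower r (p : ℤ) (od a p : ℤ) ho1' ho2' (by
    push_cast; exact hspec)
  push_cast at hlow
  set Λ := |(p : ℝ) * Real.log 2 - od a p * Real.log 3| with hΛ
  -- lower bound for the form
  have hlam : (1 : ℝ) / 2 ^ (13 + 39 * r) ≤ Λ := by
    rw [div_le_iff₀ (by positivity), pow_add]
    linarith
  have hb := range_bound h hN h0 hmin hM (20 + 39 * r) 1 (by omega) (by norm_num) (by norm_num) _
    (by positivity) hlam (by
      have e : (1 : ℝ) / 2 ^ (13 + 39 * r) * 2 ^ (20 + 39 * r) = 128 := by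
        rw [show 20 + 39 * r = (13 + 39 * r) + 7 by ring, pow_add _ _ 7]
        field_simp
        norm_num
      rw [e]
      have h1 : (1 : ℝ) / 2 ^ (13 + 39 * r) ≤ 1 := by
        rw [div_le_one (by positivity)]
        exact one_le_pow₀ (by norm_num)
      rw [hk]; linarith) (by
      have h1 : (32 : ℝ) / (2 ^ (20 + 39 * r) - 1) ≤ 33 / 2 ^ (20 + 39 * r) := by
        have h2 : (1024 : ℝ) ≤ 2 ^ (20 + 39 * r) := by
          calc (1024 : ℝ) = 2 ^ 10 := by norm_num
            _ ≤ _ := pow_le_pow_right₀ (by norm_num) (by omega)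
        rw [div_le_div_iff₀ (by linarith) (by positivity)]
        nlinarith
      have h2 : (33 : ℝ) / 2 ^ (20 + 39 * r) = 33 / 128 * (1 / 2 ^ (13 + 39 * r)) := by
        rw [show 20 + 39 * r = (13 + 39 * r) + 7 by ring, pow_add _ _ 7]
        field_simp
        norm_num
      have h3 : (0 : ℝ) < 1 / 2 ^ (13 + 39 * r) := by positivity
      have h4 : (32 : ℝ) / (2 ^ (20 + 39 * r) - 1) ≤ 33 / 128 * (1 / 2 ^ (13 + 39 * r)) :=
        h1.trans h2.le
      have h5 : (((1 : ℕ) : ℝ) - 1) / 2900000000 = 0 := by norm_num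
      rw [h5, zero_add, hk]
      generalize (32 : ℝ) / (2 ^ (20 + 39 * r) - 1) = X at *
      generalize (1 : ℝ) / 2 ^ (13 + 39 * r) = Y at *
      linarith)
  push_cast at hb
  -- numerical form of the bound
  have hb2 : (p : ℝ) ≤ 16600000 * (20 + 39 * r) := by
    rw [psi_closed] at hb
    norm_num at hb
    have hr0 : (0 : ℝ) ≤ r := Nat.cast_nonneg _
    nlinarith
  rcases Nat.lt_or_ge r 51 with h4 | h4
  · have h5 : (r : ℝ) ≤ 50 := by exact_mod_cast (by omega : r ≤ 50)
    nlinarith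
  · obtain ⟨j, hj⟩ : ∃ j, r = 51 + j := ⟨r - 51, by omega⟩
    have h5 : c ^ (50 + j) < 49 * ((p : ℝ) - od a p) := by
      have := Nat.find_min hex (show 50 + j < Nat.find hex by omega)
      exact not_le.1 this
    have hb3 : (1 : ℝ) + 0.74 * j ≤ c ^ j := by
      have h := one_add_mul_le_pow (a := (0.74 : ℝ)) (by norm_num) j
      refine le_trans (le_of_eq (by ring)) (h.trans ?_)
      apply pow_le_pow_left₀ (by norm_num)
      rw [hc]; norm_num
    have hb4 : (1000000000000 : ℝ) ≤ c ^ 50 := by rw [hc]; norm_num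
    have h6 : (1000000000000 : ℝ) * (1 + 0.74 * j) ≤ c ^ (50 + j) := by
      rw [pow_add]
      exact mul_le_mul hb4 hb3 (by positivity) (by positivity)
    have h7 : (r : ℝ) = 51 + j := by rw [hj]; push_cast; ring
    have hj0 : (0 : ℝ) ≤ j := Nat.cast_nonneg _
    rw [h7] at hb2
    nlinarith

end Pool.Agent.H15.Cyc
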