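import Mathlib
import Pool.Agent.H15.Cyc.Conv
import Pool.Agent.H15.Cyc.None

set_option autoImplicit false

/-!
Cycles as finite sets.
-/

namespace Pool.Agent.H15.Cyc

open Finset

/-- A cycle of `T`: the set `{x, T x, ..., T^(p-1) x}` with `p ≥ 1` and `T^p x = x`. -/
def IsCycle (Z : Finset ℤ) : Prop :=
  ∃ x : ℤ, ∃ p : ℕ, 1 ≤ p ∧ T^[p] x = x ∧ Z = (Finset.range p).image (fun i => T^[i] x)

variable {Z W : Finset ℤ}

theorem IsCycle.closed (hZ : IsCycle Z) {y : ℤ} (hy : y ∈ Z) (j : ℕ) : T^[j] y ∈ Z := by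
  obtain ⟨x, p, hp, hx, rfl⟩ := hZ
  rw [mem_image] at hy ⊢
  obtain ⟨i, hi, rfl⟩ := hy
  refine ⟨(j + i) % p, mem_range.2 (Nat.mod_lt _ hp), ?_⟩
  rw [← Function.iterate_add_apply]
  have hper : Function.IsPeriodicPt T p x := hx
  exact hper.iterate_mod_apply _

theorem IsCycle.gen (hZ : IsCycle Z) {y z : ℤ} (hy : y ∈ Z) (hz : z ∈ Z) : ∃ j, T^[j] y = z := by
  obtain ⟨x, p, hp, hx, rfl⟩ := hZ
  rw [mem_image] at hy hz
  obtain ⟨i, hi, rfl⟩ := hy
  obtain ⟨k, hk, rfl⟩ := hz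
  rw [mem_range] at hi hk
  refine ⟨k + (p - i), ?_⟩
  rw [← Function.iterate_add_apply, show k + (p - i) + i = k + p by omega,
    Function.iterate_add_apply, hx]

theorem IsCycle.per (hZ : IsCycle Z) {y : ℤ} (hy : y ∈ Z) : ∃ p, 1 ≤ p ∧ T^[p] y = y := by
  obtain ⟨x, p, hp, hx, rfl⟩ := hZ
  rw [mem_image] at hy
  obtain ⟨i, hi, rfl⟩ := hy
  refine ⟨p, hp, ?_⟩
  rw [← Function.iterate_add_apply, add_comm, Function.iterate_add_apply, hx]

theorem IsCycle.eq_of_mem (hZ : IsCycle Z) (hW : IsCycle W) {x : ℤ} (h1 : x ∈ Z) (h2 : x ∈ W) :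
    Z = W := by
  ext y
  constructor
  · intro hy
    obtain ⟨j, rfl⟩ := hZ.gen h1 hy
    exact hW.closed h2 j
  · intro hy
    obtain ⟨j, rfl⟩ := hW.gen h2 hy
    exact hZ.closed h1 j

theorem IsCycle.pred (hZ : IsCycle Z) {y : ℤ} (hy : y ∈ Z) : ∃ x ∈ Z, T x = y := by
  obtain ⟨p, hp, h⟩ := hZ.per hy
  obtain ⟨q, rfl⟩ : ∃ q, p = q + 1 := ⟨p - 1, by omega⟩
  refine ⟨T^[q] y, hZ.closed hy q, ?_⟩
  rw [← Function.iterate_succ_apply' T q y]
  exact h

theorem IsCycle.nonempty (hZ : IsCycle Z) : Z.Nonempty := by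
  obtain ⟨x, p, hp, hx, rfl⟩ := hZ
  exact ⟨x, mem_image.2 ⟨0, mem_range.2 hp, rfl⟩⟩

/-- elements congruent to `3` modulo `4` preceded by an even element: local minima at which at least
two odd elements follow each other. -/
def marks (Z : Finset ℤ) : Finset ℤ := Z.filter (fun x => x % 4 = 3 ∧ 2 * x ∈ Z)

theorem IsCycle.known (hZ : IsCycle Z) (hc : (marks Z).card ≤ 32) : ∃ x ∈ Z, x ∈ Kn := by
  by_contra hcon
  push Not at hcon
  have hbig : ∀ x ∈ Z, 2900000000 ≤ |x| := by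
    intro x hx
    by_contra h
    push Not at h
    obtain ⟨j, hj⟩ := reach x h
    exact hcon _ (hZ.closed hx j) hj
  obtain ⟨x1, hx1, hmin⟩ := Finset.exists_min_image Z (fun x => |x|) hZ.nonempty
  obtain ⟨x0, hx0, h01⟩ := hZ.pred hx1
  have hb1 := hbig x1 hx1
  have hT1 := hmin _ (hZ.closed hx1 1)
  have hT2 := hmin _ (hZ.closed hx1 2)
  have hm0 := hmin _ hx0
  have e1 : T^[1] x1 = T x1 := rfl
  have e2 : T^[2] x1 = T (T x1) := rfl
  rw [e1] at hT1
  rw [e2] at hT2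
  -- the least element is odd
  have hodd : x1 % 2 = 1 := by
    rcases par x1 with h | h
    · have := T_even h
      rcases abs_cases x1 with ⟨h1, h2⟩ | ⟨h1, h2⟩ <;>
        rcases abs_cases (T x1) with ⟨h3, h4⟩ | ⟨h3, h4⟩ <;> omega
    · exact h
  have h4 : x1 % 4 = 3 := by
    by_contra h
    have h5 := T_odd hodd
    have h6 : T x1 % 2 = 0 := by omega
    have h7 := T_even h6
    rcases abs_cases x1 with ⟨h1, h2⟩ | ⟨h1, h2⟩ <;>
      rcases abs_cases (T (T x1)) with ⟨h3, h4⟩ | ⟨h3, h4⟩ <;> omega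
  have hev : x0 % 2 = 0 := by
    rcases par x0 with h | h
    · exact h
    · have h5 := T_odd h
      rw [h01] at h5
      rcases abs_cases x1 with ⟨h1, h2⟩ | ⟨h1, h2⟩ <;>
        rcases abs_cases x0 with ⟨h3, h4⟩ | ⟨h3, h4⟩ <;> omega
  -- the orbit
  set a : ℕ → ℤ := fun i => T^[i] x0 with ha
  obtain ⟨q, hq1, hq2⟩ := hZ.per hx0
  have hperq : Function.IsPeriodicPt T q x0 := hq2
  set p := Function.minimalPeriod T x0 with hp
  have hp1 : 1 ≤ p := hperq.minimalPeriod_pos hq1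
  have hpp : T^[p] x0 = x0 := Function.isPeriodicPt_minimalPeriod T x0
  have hmem : ∀ i, a i ∈ Z := fun i => hZ.closed hx0 i
  have horb : Orb a p 2900000000 :=
    { step := fun i => Function.iterate_succ_apply' T i x0
      per := fun i => by
        change T^[i + p] x0 = T^[i] x0
        rw [Function.iterate_add_apply, hpp]
      pos := hp1
      big := fun i => by
        have := hbig _ (hmem i)
        exact_mod_cast this }
  have ha1 : a 1 = x1 := h01
  have ha0 : a 0 = x0 := rfl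
  refine none horb le_rfl ⟨by rw [ha0]; exact hev, by rw [ha1]; exact h4⟩ (fun i => by
    rw [ha1]; exact hmin _ (hmem i)) ?_
  refine le_trans ?_ hc
  rw [Nat.count_eq_card_filter_range]
  refine Finset.card_le_card_of_injOn (fun i => a (i + 1)) ?_ ?_
  · intro i hi
    have hi' : i ∈ (range p).filter (Ev a) := hi
    rw [mem_filter] at hi'
    obtain ⟨-, h5, h6⟩ := hi'
    change a (i + 1) ∈ marks Z
    unfold marks
    rw [mem_filter]
    refine ⟨hmem _, h6, ?_⟩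
    have h7 : 2 * a (i + 1) = a i := horb.even_step h5
    rw [h7]
    exact hmem i
  · intro i hi j hj hij
    have hi' : i ∈ (range p).filter (Ev a) := hi
    have hj' : j ∈ (range p).filter (Ev a) := hj
    rw [mem_filter, mem_range] at hi' hj'
    have h5 : 2 * a (i + 1) = a i := horb.even_step hi'.2.1
    have h6 : 2 * a (j + 1) = a j := horb.even_step hj'.2.1
    have h7 : a i = a j := by
      rw [← h5, ← h6]
      have : a (i + 1) = a (j + 1) := hij
      rw [this]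
    exact (Function.iterate_eq_iterate_iff_of_lt_minimalPeriod hi'.1 hj'.1).1 h7

theorem cyc1 : IsCycle {1, 2} := ⟨1, 2, by decide, by decide, by decide⟩
theorem cyc2 : IsCycle {0} := ⟨0, 1, by decide, by decide, by decide⟩
theorem cyc3 : IsCycle {-1} := ⟨-1, 1, by decide, by decide, by decide⟩
theorem cyc4 : IsCycle {-5, -7, -10} := ⟨-5, 3, by decide, by decide, by decide⟩
theorem cyc5 : IsCycle {-17, -25, -37, -55, -82, -41, -61, -91, -136, -68, -34} :=
  ⟨-17, 11, by decide, by decide, by decide⟩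

theorem IsCycle.classify (hZ : IsCycle Z) {x : ℤ} (h1 : x ∈ Z) (h2 : x ∈ Kn) :
    Z = {1, 2} ∨ Z = {0} ∨ Z = {-1} ∨ Z = {-5, -7, -10} ∨
      Z = {-17, -25, -37, -55, -82, -41, -61, -91, -136, -68, -34} := by
  have h3 : ∀ x ∈ Kn, x ∈ ({1, 2} : Finset ℤ) ∨ x ∈ ({0} : Finset ℤ) ∨ x ∈ ({-1} : Finset ℤ) ∨
    x ∈ ({-5, -7, -10} : Finset ℤ) ∨
    x ∈ ({-17, -25, -37, -55, -82, -41, -61, -91, -136, -68, -34} : Finset ℤ) := by decide
  rcases h3 x h2 with h | h | h | h | h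
  · exact Or.inl (hZ.eq_of_mem cyc1 h1 h)
  · exact Or.inr (Or.inl (hZ.eq_of_mem cyc2 h1 h))
  · exact Or.inr (Or.inr (Or.inl (hZ.eq_of_mem cyc3 h1 h)))
  · exact Or.inr (Or.inr (Or.inr (Or.inl (hZ.eq_of_mem cyc4 h1 h))))
  · exact Or.inr (Or.inr (Or.inr (Or.inr (hZ.eq_of_mem cyc5 h1 h))))

end Pool.Agent.H15.Cyc
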